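import Pool.Agent.Helper37.SY.Spec

set_option autoImplicit false

/-!
# Swarm SY, part VOL: the volume of a simplex
-/

noncomputable section

open MeasureTheory Set

namespace Pool.Agent.Helper76.SY.VOL

open Pool.Agent.Helper77.LM

variable {n : ℕ}

/-- the corner simplex -/
def T (n : ℕ) : Set (Fin n → ℝ) := {z | (∀ i, 0 ≤ z i) ∧ ∑ i, z i ≤ 1}

/-- the matrix of edges -/
def Dm (x : Fin (n + 1) → Fin n → ℝ) : Matrix (Fin n) (Fin n) ℝ :=
  Matrix.of fun i j : Fin n => x i.succ j - x 0 j

/-- the parametrization -/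
def par (x : Fin (n + 1) → Fin n → ℝ) (z : Fin n → ℝ) : Fin n → ℝ :=
  x 0 + Matrix.toLin' (Dm x).transpose z

lemma par_apply (x : Fin (n + 1) → Fin n → ℝ) (z : Fin n → ℝ) (j : Fin n) :
    par x z j = x 0 j + ∑ i, z i * (x i.succ j - x 0 j) := by
  rw [par, Pi.add_apply, Matrix.toLin'_apply, Matrix.mulVec, dotProduct]
  congr 1
  refine Finset.sum_congr rfl fun i _ => ?_
  rw [Matrix.transpose_apply, Dm, Matrix.of_apply]
  ring

lemma vol_par (x : Fin (n + 1) → Fin n → ℝ) (S : Set (Fin n → ℝ)) :
    volume (par x '' S) = ENNReal.ofReal |(Dm x).det| * volume S := by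
  have h1 : par x '' S = (fun y => x 0 + y) '' ((Matrix.toLin' (Dm x).transpose) '' S) := by
    rw [Set.image_image]
    rfl
  rw [h1, Set.image_add_left, measure_preimage_add, Measure.addHaar_image_linearMap,
    LinearMap.det_toLin', Matrix.det_transpose]

lemma convex_T : Convex ℝ (T n) := by
  intro a ha b hb s t hs ht hst
  refine ⟨fun i => ?_, ?_⟩
  · have := ha.1 i
    have := hb.1 i
    simp only [Pi.add_apply, Pi.smul_apply, smul_eq_mul]
    positivity
  · have h1 : ∑ i, (s • a + t • b) i = s * ∑ i, a i + t * ∑ i, b i := by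
      simp only [Pi.add_apply, Pi.smul_apply, smul_eq_mul, Finset.sum_add_distrib,
        Finset.mul_sum]
    rw [h1]
    calc s * ∑ i, a i + t * ∑ i, b i ≤ s * 1 + t * 1 :=
          add_le_add (mul_le_mul_of_nonneg_left ha.2 hs) (mul_le_mul_of_nonneg_left hb.2 ht)
      _ = 1 := by linarith

lemma hull (x : Fin (n + 1) → Fin n → ℝ) : convexHull ℝ (Set.range x) = par x '' (T n) := by
  apply Set.Subset.antisymm
  · refine convexHull_min ?_ ?_
    · rintro _ ⟨i, rfl⟩
      refine Fin.cases ?_ (fun k => ?_) i
      · refine ⟨0, ⟨fun i => le_refl _, by simp⟩, ?_⟩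
        rw [par, map_zero, add_zero]
      · refine ⟨Pi.single k 1, ⟨fun i => ?_, by simp⟩, ?_⟩
        · by_cases h : i = k
          · subst h; simp
          · simp [h]
        · funext j
          rw [par_apply, Finset.sum_eq_single k]
          · simp
          · intro b _ hb
            simp [hb]
          · simp
    · have h1 : par x '' (T n) = (fun y => x 0 + y) '' ((Matrix.toLin' (Dm x).transpose) '' (T n)) := by
        rw [Set.image_image]
        rfl
      rw [h1]
      exact (convex_T.linear_image _).translate _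
  · rintro _ ⟨z, hz, rfl⟩
    have h1 : par x z = ∑ i : Fin (n + 1), (Fin.cons (1 - ∑ i, z i) z : Fin (n + 1) → ℝ) i • x i := by
      rw [Fin.sum_univ_succ]
      funext j
      rw [par_apply]
      simp only [Fin.cons_zero, Fin.cons_succ, Pi.add_apply, Pi.smul_apply, smul_eq_mul,
        Finset.sum_apply, mul_sub, Finset.sum_sub_distrib]
      rw [← Finset.sum_mul]
      ring
    rw [h1]
    refine (convex_convexHull ℝ _).sum_mem ?_ ?_ ?_
    · intro i _
      refine Fin.cases ?_ (fun k => ?_) i
      · simp only [Fin.cons_zero]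
        linarith [hz.2]
      · simp only [Fin.cons_succ]
        exact hz.1 k
    · rw [Fin.sum_univ_succ]
      simp
    · intro i _
      exact subset_convexHull ℝ _ ⟨i, rfl⟩

/-- the vertices of the centered simplex -/
def pt (i : Fin (n + 1)) : Fin n → ℝ := un (Pi.single i 1)

lemma det_pt : (Dm (pt : Fin (n + 1) → Fin n → ℝ)).det = (n : ℝ) + 1 := by
  have h1 : Dm (pt : Fin (n + 1) → Fin n → ℝ) =
      1 + Matrix.replicateCol Unit (fun _ : Fin n => (1 : ℝ)) *
        Matrix.replicateRow Unit (fun _ : Fin n => (1 : ℝ)) := by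
    ext i j
    simp only [Dm, pt, un, Matrix.of_apply, Matrix.add_apply, Matrix.mul_apply, Matrix.one_apply,
      Matrix.replicateCol_apply, Matrix.replicateRow_apply, Pi.single_apply, Fin.succ_inj,
      Finset.univ_unique, Finset.sum_const, Finset.card_singleton, one_smul, mul_one]
    by_cases h : i = j
    · subst h
      simp [Fin.succ_ne_zero, (Fin.succ_ne_zero _).symm]
    · have h' : ¬ j = i := fun e => h e.symm
      simp [h, h', Fin.succ_ne_zero, (Fin.succ_ne_zero _).symm]
  rw [h1, Matrix.det_one_add_replicateCol_mul_replicateRow]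
  simp [dotProduct, add_comm]

lemma Dl_eq : Dl n = par (pt : Fin (n + 1) → Fin n → ℝ) '' (T n) := by
  have hpar : ∀ z : Fin n → ℝ, par (pt : Fin (n + 1) → Fin n → ℝ) z =
      un (Fin.cons (1 - ∑ i, z i) z) := by
    intro z
    funext j
    rw [par_apply]
    have h1 : ∀ i : Fin n, z i * ((pt i.succ : Fin n → ℝ) j - (pt 0 : Fin n → ℝ) j) =
        z i * (if i = j then 1 else 0) + z i := by
      intro i
      simp only [pt, un, Pi.single_apply, Fin.succ_inj]
      by_cases h : i = j
      · subst h
        simp [Fin.succ_ne_zero, (Fin.succ_ne_zero _).symm]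
        ring
      · have h' : ¬ j = i := fun e => h e.symm
        simp [h, h', Fin.succ_ne_zero, (Fin.succ_ne_zero _).symm]
    rw [Finset.sum_congr rfl fun i _ => h1 i, Finset.sum_add_distrib]
    simp [pt, un, Fin.succ_ne_zero]
    ring
  apply Set.Subset.antisymm
  · intro y hy
    refine ⟨fun j => bary y j.succ, ⟨fun i => hy _, ?_⟩, ?_⟩
    · have h1 := sum_bary y
      rw [Fin.sum_univ_succ] at h1
      have h2 := hy 0
      linarith
    · rw [hpar]
      have h1 := sum_bary y
      rw [Fin.sum_univ_succ] at h1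
      have h2 : (Fin.cons (1 - ∑ i : Fin n, bary y i.succ) (fun j => bary y j.succ) :
          Fin (n + 1) → ℝ) = bary y := by
        funext i
        refine Fin.cases ?_ (fun k => ?_) i
        · simp only [Fin.cons_zero]
          linarith
        · simp only [Fin.cons_succ]
      rw [h2, un_bary]
  · rintro _ ⟨z, hz, rfl⟩
    rw [hpar]
    intro i
    rw [bary_un _ (by rw [Fin.sum_univ_succ]; simp)]
    refine Fin.cases ?_ (fun k => ?_) i
    · simp only [Fin.cons_zero]
      linarith [hz.2]
    · simp only [Fin.cons_succ]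
      exact hz.1 k

lemma V_eq (n : ℕ) : V n = ((n : ℝ) + 1) / (n.factorial : ℝ) := by
  induction n with
  | zero => rw [V_zero]; simp
  | succ n ih =>
    rw [V_step, ih, Nat.factorial_succ]
    have h1 : (n.factorial : ℝ) ≠ 0 := by positivity
    push_cast
    field_simp
    ring

lemma vol_T (n : ℕ) : (volume (T n)).toReal = 1 / (n.factorial : ℝ) := by
  have h1 := V_eq n
  rw [V, Dl_eq, vol_par, det_pt, ENNReal.toReal_mul, ENNReal.toReal_ofReal (abs_nonneg _),
    abs_of_nonneg (by positivity)] at h1
  have h2 : ((n : ℝ) + 1) ≠ 0 := by positivity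
  have h3 : ((n : ℝ) + 1) * (volume (T n)).toReal = ((n : ℝ) + 1) * (1 / (n.factorial : ℝ)) := by
    rw [h1]
    ring
  exact mul_left_cancel₀ h2 h3

theorem main : Helper37.SY.S_VOL := by
  intro n x
  rw [hull, vol_par, ENNReal.toReal_mul, ENNReal.toReal_ofReal (abs_nonneg _), vol_T, Dm]
  ring

end Pool.Agent.Helper76.SY.VOL
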